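import Pool.Agent.H964.DP.Cos

/-!
# Directed polymers in the plane with critical spatial correlation `h (x) ~ |x|^(-2)`: Q2

Answer to Q2: yes. For `d = 2` and every bounded symmetric positive definite correlation `h` with
`h 0 = 1` and `h (x) |x|^2 → 1`, the free energy satisfies `β log (-p (β)) → -π / √2` as `β ↓ 0`, that is
`log (-p (β)) = -(1 + o (1)) c' / β` with `c' = π / √2` for every such `h`.

The statement is the planar analogue of the frozen statement of Q1 (same conventions: environment
`ω n x`, simple random walk as the uniform average over the `4^N` sequences of steps, `p (β)` the almost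
sure limit of `N⁻¹ log W_N`), with the value of the constant.

Proof of the upper bound for `-p`: second moment of the partition function restricted to a box at the
scale `N = exp (2 (1 - ε) L_c)`, `L_c = π / (2 √2 β)`, with a supersolution built from the profile
`cos (π y / 2)`, Gaussian concentration and superadditivity.

Proof of the lower bound: fractional moment and coarse graining; the change of measure in one block is
the indicator of the event that a polynomial chaos of order `q ~ C log L` of the averaged environment,
restricted to short chains, is large. Its first moment under the size-biased law is bounded below by a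
subsolution built from the profile; its second moments by supersolutions at a slightly larger scale. Both
exponential rates match up to `ε`, and a factor `q`-th power wins against all polynomial factors.
-/

set_option autoImplicit false

open MeasureTheory ProbabilityTheory Filter

namespace Pool.Agent.Results.MP_1e2dfa_pr.PlanarFreeEnergy

/-- For simple random walk on `ℤ²` in a Gaussian environment, white in time with symmetric positive
definite spatial correlation `h`, `h 0 = 1`, `h (x) ~ |x|^(-2)` (such an `h` is bounded by `1`), the almost
sure free energy `p` of the normalised partition function satisfies `p β < 0` for small `β` and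
`log (-p β) * β → -π / √2` as `β ↓ 0`. -/
theorem result :
  ∀ (h : (Fin 2 → ℤ) → ℝ),
    (∀ x, h (-x) = h x) →
    (∀ (s : Finset (Fin 2 → ℤ)) (a : (Fin 2 → ℤ) → ℝ),
        0 ≤ Finset.sum s (fun x => Finset.sum s (fun y => a x * a y * h (x - y)))) →
    h 0 = 1 →
    Tendsto (fun x : Fin 2 → ℤ => h x * Finset.sum Finset.univ (fun i : Fin 2 => ((x i : ℝ)) ^ 2))
      cofinite (nhds 1) →
    ∀ (Ω : Type) [MeasurableSpace Ω] (P : Measure Ω) [IsProbabilityMeasure P]
      (ω : ℕ → (Fin 2 → ℤ) → Ω → ℝ),
      (∀ n x, Measurable (ω n x)) →
      (∀ (s : Finset (ℕ × (Fin 2 → ℤ))) (a : ℕ × (Fin 2 → ℤ) → ℝ),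
        P.map (fun w => Finset.sum s (fun i => a i * ω i.1 i.2 w)) =
          gaussianReal 0 (Real.toNNReal
            (Finset.sum s (fun i => Finset.sum s (fun j =>
              a i * a j * (if i.1 = j.1 then h (i.2 - j.2) else 0)))))) →
      ∀ p : ℝ → ℝ,
        (∀ β : ℝ, 0 < β → Filter.Eventually (fun w =>
          Tendsto
            (fun N : ℕ => Real.log (((4 : ℝ) ^ N)⁻¹ *
              Finset.sum Finset.univ (fun σ : Fin N → Fin 2 × Bool =>
                Real.exp (Finset.sum (Finset.Icc 1 N) (fun n =>
                  β * ω n (Finset.sum (Finset.univ.filter (fun k : Fin N => k.val < n))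
                      (fun k => (Pi.single (σ k).1 (if (σ k).2 then (1 : ℤ) else -1) : Fin 2 → ℤ))) w
                    - β ^ 2 / 2)))) / (N : ℝ))
            atTop (nhds (p β))) (ae P)) →
        (∀ᶠ β in nhdsWithin 0 (Set.Ioi 0), p β < 0) ∧
        Tendsto (fun β : ℝ => Real.log (-p β) * β) (nhdsWithin 0 (Set.Ioi 0)) (nhds (-(Real.pi / Real.sqrt 2))) := by
  intro h hsym hpsd h0 hh Ω _ P _ ω hm hG p hp
  have hh' : Tendsto (fun x : Fin 2 → ℤ => h x * (∑ i : Fin 2, (x i : ℝ) ^ 2) /
      Real.log (Real.sqrt (∑ i : Fin 2, (x i : ℝ) ^ 2)) ^ (0 : ℝ)) cofinite (nhds 1) := by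
    refine hh.congr fun x => ?_
    rw [Real.rpow_zero, div_one]
  obtain ⟨h1, h2⟩ := Pool.Agent.H964.DP.sharp_fin (a := 0) (by norm_num) (by positivity)
    Pool.Agent.H964.DP.sup_cos Pool.Agent.H964.DP.sub_cos h hsym hpsd h0 hh' Ω P ω hm hG p hp
  refine ⟨h1, ?_⟩
  rw [Pool.Agent.H964.DP.const_cos] at h2
  refine h2.congr fun β => ?_
  have e : (2 : ℝ) / (0 + 2) = 1 := by norm_num
  rw [e, Real.rpow_one, mul_comm]

end Pool.Agent.Results.MP_1e2dfa_pr.PlanarFreeEnergy
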